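import Mathlib

namespace Pool.Agent.Lib.P0479e2

/-- `S` is a total dominating set of `G`: every vertex of `G` has a neighbour in `S`. -/
def IsTotalDominating {V : Type*} (G : SimpleGraph V) (S : Finset V) : Prop :=
  ∀ v : V, ∃ u ∈ S, G.Adj v u

/-- The total domination number of `G`: the least size of a total dominating set. -/
noncomputable def totalDomNumber {V : Type*} (G : SimpleGraph V) : ℕ :=
  sInf {k : ℕ | ∃ S : Finset V, IsTotalDominating G S ∧ S.card = k}

end Pool.Agent.Lib.P0479e2
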