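import Mathlib
import Pool.Agent.Lib.P0479e2.Defs

namespace Pool.Agent.Lib.P0479e2

open Finset


section Core

variable {V : Type*} [DecidableEq V] (r : V → V → Prop)

open Classical in
/-- Core inequality: `X`, `Y` finite sets, `r x y` the adjacency. `D` is a minimum subset of `Y`
dominating `X` (size `b`), every subset of `X` dominating `Y` has at least `a` elements, `a < b`.
Then the number of non-adjacent pairs is at least `q (b-1) + (p-b) (a-1)`. -/
theorem core (X Y D : Finset V) (a b : ℕ) (hab : a < b) (hDY : D ⊆ Y) (hDb : D.card = b)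
    (hDdom : ∀ x ∈ X, ∃ y ∈ D, r x y)
    (hYmin : ∀ S ⊆ Y, (∀ x ∈ X, ∃ y ∈ S, r x y) → b ≤ S.card)
    (hXmin : ∀ S ⊆ X, (∀ y ∈ Y, ∃ x ∈ S, r x y) → a ≤ S.card)
    (hYiso : ∀ y ∈ Y, ∃ x ∈ X, r x y) :
    Y.card * (b - 1) + (X.card - b) * (a - 1)
      ≤ ∑ y ∈ Y, (X.filter (fun x => ¬ r x y)).card := by
  -- private neighbours
  have hpriv : ∀ y ∈ D, ∃ z ∈ X, r z y ∧ ∀ y' ∈ D, y' ≠ y → ¬ r z y' := by
    intro y hy
    by_contra hcon
    push Not at hcon
    have hdom : ∀ x ∈ X, ∃ y' ∈ D.erase y, r x y' := by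
      intro x hx
      by_cases hxy : r x y
      · obtain ⟨y', hy', hne, hr⟩ := hcon x hx hxy
        exact ⟨y', Finset.mem_erase.mpr ⟨hne, hy'⟩, hr⟩
      · obtain ⟨y', hy', hr⟩ := hDdom x hx
        refine ⟨y', Finset.mem_erase.mpr ⟨?_, hy'⟩, hr⟩
        rintro rfl
        exact hxy hr
    have h1 := hYmin (D.erase y) ((Finset.erase_subset _ _).trans hDY) hdom
    have h2 := Finset.card_erase_of_mem hy
    have h3 : 0 < D.card := Finset.card_pos.mpr ⟨y, hy⟩
    omega
  choose! z hzX hzadj hzpriv using hpriv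
  set Z := D.image z with hZ
  have hzinj : Set.InjOn z (D : Set V) := by
    intro y hy y' hy' h
    by_contra hne
    have h1 := hzpriv y hy y' hy' (fun h => hne h.symm)
    rw [h] at h1
    exact h1 (hzadj y' hy')
  have hZcard : Z.card = b := by
    rw [hZ, Finset.card_image_of_injOn hzinj, hDb]
  have hZX : Z ⊆ X := by
    intro w hw
    obtain ⟨y, hy, rfl⟩ := Finset.mem_image.mp hw
    exact hzX y hy
  -- c x
  set c : V → ℕ := fun x => (D.filter (fun y => ¬ r x y)).card with hc
  have hcZ : ∀ x ∈ Z, b - 1 ≤ c x := by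
    intro w hw
    obtain ⟨y, hy, rfl⟩ := Finset.mem_image.mp hw
    have hsub : D.erase y ⊆ D.filter (fun y' => ¬ r (z y) y') := by
      intro y' hy'
      rw [Finset.mem_erase] at hy'
      exact Finset.mem_filter.mpr ⟨hy'.2, hzpriv y hy y' hy'.2 hy'.1⟩
    have := Finset.card_le_card hsub
    rw [Finset.card_erase_of_mem hy, hDb] at this
    exact this
  -- lower bound on M^+(y)
  have hMplus : ∀ y ∈ Y \ D, b - 1 ≤ (X.filter (fun x => ¬ r x y ∧ a - 1 ≤ c x)).card := by
    intro y hy
    rw [Finset.mem_sdiff] at hy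
    by_contra hlt
    push Not at hlt
    set M := X.filter (fun x => ¬ r x y ∧ a - 1 ≤ c x) with hM
    choose! l hlD hlr using hDdom
    have hLD : M.image l ⊆ D := by
      intro w hw
      obtain ⟨x, hx, rfl⟩ := Finset.mem_image.mp hw
      exact hlD x (Finset.mem_filter.mp hx).1
    have hLcard : (M.image l).card ≤ b - 2 := by
      have := Finset.card_image_le (s := M) (f := l)
      omega
    obtain ⟨L, hL1, hL2, hL3⟩ := Finset.exists_subsuperset_card_eq hLD hLcard (by omega)
    have hyL : y ∉ L := fun h => hy.2 (hL2 h)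
    have hnd : ¬ ∀ x ∈ X, ∃ y' ∈ insert y L, r x y' := by
      intro hdom
      have h1 := hYmin (insert y L) (by
        intro w hw
        rcases Finset.mem_insert.mp hw with rfl | hw
        · exact hy.1
        · exact hDY (hL2 hw)) hdom
      rw [Finset.card_insert_of_notMem hyL, hL3] at h1
      omega
    push Not at hnd
    obtain ⟨w, hwX, hw⟩ := hnd
    have hwM : w ∈ M := by
      refine Finset.mem_filter.mpr ⟨hwX, hw y (Finset.mem_insert_self _ _), ?_⟩
      have hsub : L ⊆ D.filter (fun y' => ¬ r w y') := by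
        intro y' hy'
        exact Finset.mem_filter.mpr ⟨hL2 hy', hw y' (Finset.mem_insert_of_mem hy')⟩
      have h1 := Finset.card_le_card hsub
      have h2 : L.card = b - 2 := hL3
      show a - 1 ≤ (D.filter (fun y => ¬ r w y)).card
      omega
    have hlL : l w ∈ L := hL1 (Finset.mem_image_of_mem l hwM)
    exact hw (l w) (Finset.mem_insert_of_mem hlL) (hlr w hwX)
  -- each x misses at least a - 1 vertices of Y
  have hMx : ∀ x ∈ X, a ≤ 1 + (Y.filter (fun y => ¬ r x y)).card := by
    intro x hx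
    choose! g hgX hgr using hYiso
    have hdom := hXmin (insert x ((Y.filter (fun y => ¬ r x y)).image g)) (by
      intro w hw
      rcases Finset.mem_insert.mp hw with rfl | hw
      · exact hx
      · obtain ⟨y, hy, rfl⟩ := Finset.mem_image.mp hw
        exact hgX y (Finset.mem_filter.mp hy).1) (by
      intro y hy
      by_cases hxy : r x y
      · exact ⟨x, Finset.mem_insert_self _ _, hxy⟩
      · exact ⟨g y, Finset.mem_insert_of_mem (Finset.mem_image_of_mem g
          (Finset.mem_filter.mpr ⟨hy, hxy⟩)), hgr y hy⟩)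
    have h1 := Finset.card_insert_le x ((Y.filter (fun y => ¬ r x y)).image g)
    have h2 := Finset.card_image_le (s := Y.filter (fun y => ¬ r x y)) (f := g)
    omega
  -- assemble
  have hsplit : ∑ y ∈ Y, (X.filter (fun x => ¬ r x y)).card
      = ∑ y ∈ D, (X.filter (fun x => ¬ r x y)).card
        + ∑ y ∈ Y \ D, (X.filter (fun x => ¬ r x y)).card := by
    rw [add_comm, Finset.sum_sdiff hDY]
  have hDsum : ∑ y ∈ D, (X.filter (fun x => ¬ r x y)).card = ∑ x ∈ X, c x := by
    simp only [hc, Finset.card_filter]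
    rw [Finset.sum_comm]
  have hYDsplit : ∀ y, (X.filter (fun x => ¬ r x y)).card
      = (X.filter (fun x => ¬ r x y ∧ a - 1 ≤ c x)).card
        + (X.filter (fun x => ¬ r x y ∧ ¬ a - 1 ≤ c x)).card := by
    intro y
    rw [← Finset.card_filter_add_card_filter_not (s := X.filter (fun x => ¬ r x y))
      (p := fun x => a - 1 ≤ c x), Finset.filter_filter, Finset.filter_filter]
  have hminus : ∑ y ∈ Y \ D, (X.filter (fun x => ¬ r x y ∧ ¬ a - 1 ≤ c x)).card
      = ∑ x ∈ X.filter (fun x => ¬ a - 1 ≤ c x), ((Y \ D).filter (fun y => ¬ r x y)).card := by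
    simp only [Finset.card_filter, Finset.sum_filter]
    rw [Finset.sum_comm]
    refine Finset.sum_congr rfl (fun x _ => ?_)
    by_cases hx : a - 1 ≤ c x
    · simp [hx]
    · simp [hx]
  have hxval : ∀ x ∈ X, a - 1 - c x ≤ ((Y \ D).filter (fun y => ¬ r x y)).card := by
    intro x hx
    have h1 := hMx x hx
    have h2 : (Y.filter (fun y => ¬ r x y)).card
        = ((Y \ D).filter (fun y => ¬ r x y)).card + c x := by
      simp only [hc, Finset.card_filter]
      exact (Finset.sum_sdiff hDY).symm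
    omega
  have hsum1 : ∑ x ∈ X, (c x + (if a - 1 ≤ c x then 0 else a - 1 - c x))
      ≤ ∑ x ∈ X, c x + ∑ x ∈ X.filter (fun x => ¬ a - 1 ≤ c x),
          ((Y \ D).filter (fun y => ¬ r x y)).card := by
    rw [Finset.sum_add_distrib]
    refine Nat.add_le_add_left ?_ _
    rw [Finset.sum_filter]
    refine Finset.sum_le_sum (fun x hx => ?_)
    by_cases h : a - 1 ≤ c x
    · simp [h]
    · simp only [h, if_false, not_false_eq_true, if_true]
      exact hxval x hx
  have hsum2 : b * (b - 1) + (X.card - b) * (a - 1)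
      ≤ ∑ x ∈ X, (c x + (if a - 1 ≤ c x then 0 else a - 1 - c x)) := by
    rw [← Finset.sum_sdiff hZX, add_comm (∑ x ∈ X \ Z, _)]
    refine Nat.add_le_add ?_ ?_
    · have : ∑ x ∈ Z, (b - 1) ≤ ∑ x ∈ Z, (c x + (if a - 1 ≤ c x then 0 else a - 1 - c x)) :=
        Finset.sum_le_sum (fun x hx => (hcZ x hx).trans (Nat.le_add_right _ _))
      rw [Finset.sum_const, hZcard, smul_eq_mul] at this
      exact this
    · have : ∑ x ∈ X \ Z, (a - 1)
          ≤ ∑ x ∈ X \ Z, (c x + (if a - 1 ≤ c x then 0 else a - 1 - c x)) :=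
        Finset.sum_le_sum (fun x _ => by split_ifs <;> omega)
      rw [Finset.sum_const, Finset.card_sdiff_of_subset hZX, hZcard, smul_eq_mul] at this
      exact this
  have hsum3 : (Y.card - b) * (b - 1)
      ≤ ∑ y ∈ Y \ D, (X.filter (fun x => ¬ r x y ∧ a - 1 ≤ c x)).card := by
    have := Finset.sum_le_sum hMplus
    rw [Finset.sum_const, Finset.card_sdiff_of_subset hDY, hDb, smul_eq_mul] at this
    exact this
  have hYD : b ≤ Y.card := hDb ▸ Finset.card_le_card hDY
  have hfin : Y.card * (b - 1) = (Y.card - b) * (b - 1) + b * (b - 1) := by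
    rw [← Nat.add_mul, Nat.sub_add_cancel hYD]
  rw [hsplit, hDsum, Finset.sum_congr rfl (fun y _ => hYDsplit y), Finset.sum_add_distrib, hminus]
  omega

end Core

section Graph

variable {V : Type*} [Fintype V]

/-- If `X`, `Y` is the bipartition, `S` a minimum total dominating set with
`|S ∩ X| < |S ∩ Y|`, the size is at most `(p-b+1)(q-a+1)+a-1`. -/
theorem graph_bound (G : SimpleGraph V) (X Y : Finset V)
    (hbip : G.IsBipartiteWith X Y) (S : Finset V) (hS : IsTotalDominating G S)
    (hmin : ∀ S' : Finset V, IsTotalDominating G S' → S.card ≤ S'.card)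
    (hXY : ∀ v, v ∈ X ∨ v ∈ Y) [DecidableEq V] (hlt : (S ∩ X).card < (S ∩ Y).card) :
    G.edgeSet.ncard + Y.card * ((S ∩ Y).card - 1)
      + (X.card - (S ∩ Y).card) * ((S ∩ X).card - 1) ≤ X.card * Y.card := by
  classical
  have hdisj : Disjoint X Y := by exact_mod_cast hbip.disjoint
  have hS' : S = (S ∩ X) ∪ (S ∩ Y) := by
    ext v
    simp only [Finset.mem_union, Finset.mem_inter]
    constructor
    · intro hv
      rcases hXY v with h | h
      · exact Or.inl ⟨hv, h⟩
      · exact Or.inr ⟨hv, h⟩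
    · rintro (h | h) <;> exact h.1
  have hScard : S.card = (S ∩ X).card + (S ∩ Y).card := by
    conv_lhs => rw [hS']
    refine Finset.card_union_of_disjoint ?_
    exact Finset.disjoint_of_subset_left Finset.inter_subset_right
      (Finset.disjoint_of_subset_right Finset.inter_subset_right hdisj)
  have hXdom : ∀ x ∈ X, ∃ y ∈ S ∩ Y, G.Adj x y := by
    intro x hx
    obtain ⟨u, hu, hadj⟩ := hS x
    exact ⟨u, Finset.mem_inter.mpr ⟨hu, hbip.mem_of_mem_adj hx hadj⟩, hadj⟩
  have hYdom : ∀ y ∈ Y, ∃ x ∈ S ∩ X, G.Adj x y := by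
    intro y hy
    obtain ⟨u, hu, hadj⟩ := hS y
    exact ⟨u, Finset.mem_inter.mpr ⟨hu, hbip.symm.mem_of_mem_adj hy hadj⟩, hadj.symm⟩
  have hYmin : ∀ T ⊆ Y, (∀ x ∈ X, ∃ y ∈ T, G.Adj x y) → (S ∩ Y).card ≤ T.card := by
    intro T _ hT
    have hdom : IsTotalDominating G ((S ∩ X) ∪ T) := by
      intro v
      rcases hXY v with h | h
      · obtain ⟨y, hy, hadj⟩ := hT v h
        exact ⟨y, Finset.mem_union_right _ hy, hadj⟩
      · obtain ⟨x, hx, hadj⟩ := hYdom v h
        exact ⟨x, Finset.mem_union_left _ hx, hadj.symm⟩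
    have h1 := hmin _ hdom
    have h2 := Finset.card_union_le (S ∩ X) T
    omega
  have hXmin : ∀ T ⊆ X, (∀ y ∈ Y, ∃ x ∈ T, G.Adj x y) → (S ∩ X).card ≤ T.card := by
    intro T _ hT
    have hdom : IsTotalDominating G (T ∪ (S ∩ Y)) := by
      intro v
      rcases hXY v with h | h
      · obtain ⟨y, hy, hadj⟩ := hXdom v h
        exact ⟨y, Finset.mem_union_right _ hy, hadj⟩
      · obtain ⟨x, hx, hadj⟩ := hT v h
        exact ⟨x, Finset.mem_union_left _ hx, hadj.symm⟩
    have h1 := hmin _ hdom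
    have h2 := Finset.card_union_le T (S ∩ Y)
    omega
  have hYiso : ∀ y ∈ Y, ∃ x ∈ X, G.Adj x y := by
    intro y hy
    obtain ⟨x, hx, h⟩ := hYdom y hy
    exact ⟨x, (Finset.mem_inter.mp hx).2, h⟩
  have hcore := core (fun x y => G.Adj x y) X Y (S ∩ Y) (S ∩ X).card (S ∩ Y).card hlt
    Finset.inter_subset_right rfl hXdom hYmin hXmin hYiso
  have hedges : G.edgeSet.ncard = ∑ y ∈ Y, (X.filter (fun x => G.Adj x y)).card := by
    have h1 := SimpleGraph.isBipartiteWith_sum_degrees_eq_card_edges' hbip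
    rw [Set.ncard_eq_toFinset_card', ← SimpleGraph.edgeFinset, ← h1]
    refine Finset.sum_congr rfl (fun y hy => ?_)
    rw [← SimpleGraph.card_neighborFinset_eq_degree,
      SimpleGraph.isBipartiteWith_neighborFinset' hbip hy]
  have htot : ∑ y ∈ Y, (X.filter (fun x => G.Adj x y)).card
      + ∑ y ∈ Y, (X.filter (fun x => ¬ G.Adj x y)).card = X.card * Y.card := by
    rw [← Finset.sum_add_distrib]
    have : ∀ y ∈ Y, (X.filter (fun x => G.Adj x y)).card
        + (X.filter (fun x => ¬ G.Adj x y)).card = X.card := fun y _ =>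
      Finset.card_filter_add_card_filter_not (s := X) (p := fun x => G.Adj x y)
    rw [Finset.sum_congr rfl this, Finset.sum_const, smul_eq_mul, mul_comm]
  rw [hedges]
  omega

/-- arithmetic step -/
theorem arith (m p q a b : ℕ) (hab : a < b) (hbp : b ≤ p) (hbq : b ≤ q) (ha : 1 ≤ a)
    (h : m + q * (b - 1) + (p - b) * (a - 1) ≤ p * q) :
    (4 * m : ℤ) ≤ ((p + q : ℤ) - (a + b)) * ((p + q : ℤ) - (a + b) + 4) + 2 * (a + b) - 2 := by
  obtain ⟨s, rfl⟩ := Nat.exists_eq_add_of_le hbp
  obtain ⟨t, rfl⟩ := Nat.exists_eq_add_of_le hbq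
  obtain ⟨a', rfl⟩ := Nat.exists_eq_add_of_le ha
  obtain ⟨d, rfl⟩ := Nat.exists_eq_add_of_lt hab
  simp only [Nat.add_sub_cancel_left, Nat.add_sub_cancel] at h
  have h' : ((m : ℤ) + (1 + a' + d + 1 + t) * (1 + a' + d) + s * a'
      ≤ (1 + a' + d + 1 + s) * (1 + a' + d + 1 + t)) := by
    exact_mod_cast h
  push_cast
  nlinarith [sq_nonneg ((s : ℤ) - t - d), sq_nonneg ((s : ℤ) - t - d - 1)]

/-- The main bound in the form `4 m ≤ (n-γ)(n-γ+4) + 2γ - 2` over the integers. -/
theorem four_mul_size_le (G : SimpleGraph V) (hbip : G.IsBipartite)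
    (hiso : ∀ v : V, ∃ w : V, G.Adj v w) (hodd : Odd (totalDomNumber G))
    (h3 : 3 ≤ totalDomNumber G) :
    (4 * G.edgeSet.ncard : ℤ) ≤
      ((Fintype.card V : ℤ) - totalDomNumber G) * ((Fintype.card V : ℤ) - totalDomNumber G + 4)
        + 2 * totalDomNumber G - 2 := by
  classical
  obtain ⟨C⟩ := hbip
  set X : Finset V := Finset.univ.filter (fun v => C v = 0) with hX
  set Y : Finset V := Finset.univ.filter (fun v => C v = 1) with hY
  have hXY : ∀ v, v ∈ X ∨ v ∈ Y := by
    intro v
    simp only [hX, hY, Finset.mem_filter, Finset.mem_univ, true_and]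
    have : ∀ i : Fin 2, i = 0 ∨ i = 1 := by decide
    exact this (C v)
  have hdisj : Disjoint X Y := by
    rw [Finset.disjoint_left]
    intro v hv hv'
    simp only [hX, hY, Finset.mem_filter, Finset.mem_univ, true_and] at hv hv'
    rw [hv] at hv'
    exact absurd hv' (by decide)
  have hcard : X.card + Y.card = Fintype.card V := by
    rw [← Finset.card_union_of_disjoint hdisj, ← Finset.card_univ]
    congr 1
    ext v
    simpa using hXY v
  have hB : G.IsBipartiteWith X Y := by
    refine ⟨by exact_mod_cast hdisj, ?_⟩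
    intro v w hvw
    have hne := C.valid hvw
    simp only [hX, hY, Finset.coe_filter, Finset.mem_univ, true_and, Set.mem_ofPred_eq]
    have : ∀ i j : Fin 2, i ≠ j → (i = 0 ∧ j = 1) ∨ (i = 1 ∧ j = 0) := by decide
    exact this _ _ hne
  -- a minimum total dominating set
  have hne : {k : ℕ | ∃ S : Finset V, IsTotalDominating G S ∧ S.card = k}.Nonempty := by
    refine ⟨Fintype.card V, Finset.univ, ?_, Finset.card_univ⟩
    intro v
    obtain ⟨w, hw⟩ := hiso v
    exact ⟨w, Finset.mem_univ _, hw⟩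
  obtain ⟨S, hS, hSc⟩ : ∃ S : Finset V, IsTotalDominating G S ∧ S.card = totalDomNumber G :=
    Nat.sInf_mem hne
  have hmin : ∀ S' : Finset V, IsTotalDominating G S' → S.card ≤ S'.card := by
    intro S' hS'
    rw [hSc]
    exact Nat.sInf_le ⟨S', hS', rfl⟩
  have hScard : S.card = (S ∩ X).card + (S ∩ Y).card := by
    rw [← Finset.card_union_of_disjoint (Finset.disjoint_of_subset_left Finset.inter_subset_right
      (Finset.disjoint_of_subset_right Finset.inter_subset_right hdisj))]
    congr 1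
    ext v
    simp only [Finset.mem_union, Finset.mem_inter]
    constructor
    · intro hv
      rcases hXY v with h | h
      · exact Or.inl ⟨hv, h⟩
      · exact Or.inr ⟨hv, h⟩
    · rintro (h | h) <;> exact h.1
  -- S meets both sides
  have hVne : 0 < S.card := by omega
  obtain ⟨v0, hv0⟩ := Finset.card_pos.mp hVne
  have hXn : ∃ x, x ∈ X := by
    rcases hXY v0 with h | h
    · exact ⟨v0, h⟩
    · obtain ⟨w, hw⟩ := hiso v0
      exact ⟨w, hB.symm.mem_of_mem_adj h hw⟩
  have hYn : ∃ y, y ∈ Y := by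
    obtain ⟨x, hx⟩ := hXn
    obtain ⟨w, hw⟩ := hiso x
    exact ⟨w, hB.mem_of_mem_adj hx hw⟩
  have hSX : 1 ≤ (S ∩ X).card := by
    obtain ⟨y, hy⟩ := hYn
    obtain ⟨u, hu, hadj⟩ := hS y
    exact Finset.card_pos.mpr ⟨u, Finset.mem_inter.mpr ⟨hu, hB.symm.mem_of_mem_adj hy hadj⟩⟩
  have hSY : 1 ≤ (S ∩ Y).card := by
    obtain ⟨x, hx⟩ := hXn
    obtain ⟨u, hu, hadj⟩ := hS x
    exact Finset.card_pos.mpr ⟨u, Finset.mem_inter.mpr ⟨hu, hB.mem_of_mem_adj hx hadj⟩⟩
  -- a minimum dominating set of one side injects into that side via private neighbours: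
  have key : ∀ X Y : Finset V, G.IsBipartiteWith X Y → (∀ v, v ∈ X ∨ v ∈ Y) →
      X.card + Y.card = Fintype.card V → S.card = (S ∩ X).card + (S ∩ Y).card →
      1 ≤ (S ∩ X).card → (S ∩ X).card < (S ∩ Y).card →
      (4 * G.edgeSet.ncard : ℤ) ≤
      ((Fintype.card V : ℤ) - totalDomNumber G) * ((Fintype.card V : ℤ) - totalDomNumber G + 4)
        + 2 * totalDomNumber G - 2 := by
    intro X Y hB hXY hcard hScard hSX hlt
    have h1 := graph_bound G X Y hB S hS hmin hXY hlt
    have hbq : (S ∩ Y).card ≤ Y.card := Finset.card_le_card Finset.inter_subset_right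
    have hbp : (S ∩ Y).card ≤ X.card := by
      -- choose for each x a neighbour in `Y`; at most `|X|` of them are needed
      choose g hg using hiso
      have hdom : IsTotalDominating G ((S ∩ X) ∪ X.image g) := by
        intro v
        rcases hXY v with h | h
        · exact ⟨g v, Finset.mem_union_right _ (Finset.mem_image_of_mem g h), hg v⟩
        · obtain ⟨u, hu, hadj⟩ := hS v
          exact ⟨u, Finset.mem_union_left _
            (Finset.mem_inter.mpr ⟨hu, hB.symm.mem_of_mem_adj h hadj⟩), hadj⟩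
      have h2 := hmin _ hdom
      have h3 := Finset.card_union_le (S ∩ X) (X.image g)
      have h4 := Finset.card_image_le (s := X) (f := g)
      omega
    have h5 := arith _ _ _ _ _ hlt hbp hbq hSX h1
    have h6 : ((Fintype.card V : ℕ) : ℤ) = (X.card : ℤ) + Y.card := by
      rw [← hcard]; push_cast; ring
    have h7 : ((totalDomNumber G : ℕ) : ℤ) = ((S ∩ X).card : ℤ) + (S ∩ Y).card := by
      rw [← hSc, hScard]; push_cast; ring
    rw [h6, h7]
    exact h5
  rcases lt_trichotomy (S ∩ X).card (S ∩ Y).card with h | h | h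
  · exact key X Y hB hXY hcard hScard hSX h
  · exfalso
    rw [← hSc, hScard, h] at hodd
    exact (Nat.not_odd_iff_even.mpr ⟨_, rfl⟩) hodd
  · exact key Y X hB.symm (fun v => (hXY v).symm) (by omega) (by omega) hSY h

end Graph

end Pool.Agent.Lib.P0479e2
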