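import Mathlib
import Pool.Agent.Lib.P0479e2.Defs

namespace Pool.Agent.Lib.P0479e2

/-- `j K₂`: the disjoint union of `j` copies of the graph with two vertices and one edge. -/
def copiesK2 (j : ℕ) : SimpleGraph (Fin j × Bool) where
  Adj u v := u.1 = v.1 ∧ u.2 ≠ v.2
  symm := ⟨fun _ _ h => ⟨h.1.symm, h.2.symm⟩⟩
  loopless := ⟨fun _ h => h.2 rfl⟩

/-- `G(x)`: the complete bipartite graph with parts of size `⌈x/2 - 1⌉ = (x-1)/2` and
`⌊x/2 + 1⌋ = x/2 + 1`, minus the edges of the maximum matching that joins the vertices with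
equal indices (it covers the whole smaller part). -/
def graphG (x : ℕ) : SimpleGraph (Fin ((x - 1) / 2) ⊕ Fin (x / 2 + 1)) :=
  (completeBipartiteGraph (Fin ((x - 1) / 2)) (Fin (x / 2 + 1))).deleteEdges
    {e | ∃ (i : Fin ((x - 1) / 2)) (k : Fin (x / 2 + 1)),
      (i : ℕ) = (k : ℕ) ∧ e = s(Sum.inl i, Sum.inr k)}

/-- `G(x) ∪ j K₂` (disjoint union). -/
def graphGK (x j : ℕ) :
    SimpleGraph ((Fin ((x - 1) / 2) ⊕ Fin (x / 2 + 1)) ⊕ (Fin j × Bool)) :=
  (graphG x) ⊕g (copiesK2 j)

/-- `G` is a bipartite graph of order `n` with no isolated vertices and total domination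
number `γ`. -/
def Admissible {V : Type} [Fintype V] (G : SimpleGraph V) (n γ : ℕ) : Prop :=
  Fintype.card V = n ∧ G.IsBipartite ∧ (∀ v : V, ∃ w : V, G.Adj v w) ∧ totalDomNumber G = γ

/-- `G` has maximum size among all bipartite graphs of order `n` with no isolated vertices and
total domination number `γ`. -/
def IsExtremal {V : Type} [Fintype V] (G : SimpleGraph V) (n γ : ℕ) : Prop :=
  Admissible G n γ ∧ ∀ (W : Type) [Fintype W] (H : SimpleGraph W),
    Admissible H n γ → H.edgeSet.ncard ≤ G.edgeSet.ncard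

end Pool.Agent.Lib.P0479e2
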