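import Mathlib
import Pool.Agent.Lib.P0479e2.Defs
import Pool.Agent.Lib.P0479e2.Defs2
import Pool.Agent.Lib.P0479e2.Basic

namespace Pool.Agent.Lib.P0479e2

open Finset

/-- bipartite graph: `y_i ~ x_k` iff `f i ≠ k` -/
def avoid {q p : ℕ} (f : Fin q → Fin p) : SimpleGraph (Fin q ⊕ Fin p) where
  Adj u v := match u, v with
    | Sum.inl i, Sum.inr k => f i ≠ k
    | Sum.inr k, Sum.inl i => f i ≠ k
    | _, _ => False
  symm := ⟨by rintro (i | i) (k | k) h <;> simpa using h⟩
  loopless := ⟨by rintro (i | i) h <;> simp at h⟩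

@[simp] lemma avoid_adj_lr {q p : ℕ} (f : Fin q → Fin p) (i : Fin q) (k : Fin p) :
    (avoid f).Adj (Sum.inl i) (Sum.inr k) ↔ f i ≠ k := Iff.rfl
@[simp] lemma avoid_adj_rl {q p : ℕ} (f : Fin q → Fin p) (i : Fin q) (k : Fin p) :
    (avoid f).Adj (Sum.inr k) (Sum.inl i) ↔ f i ≠ k := Iff.rfl
@[simp] lemma avoid_adj_ll {q p : ℕ} (f : Fin q → Fin p) (i k : Fin q) :
    ¬ (avoid f).Adj (Sum.inl i) (Sum.inl k) := fun h => h
@[simp] lemma avoid_adj_rr {q p : ℕ} (f : Fin q → Fin p) (i k : Fin p) :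
    ¬ (avoid f).Adj (Sum.inr i) (Sum.inr k) := fun h => h

@[simp] lemma copiesK2_adj {j : ℕ} (u v : Fin j × Bool) :
    (copiesK2 j).Adj u v ↔ u.1 = v.1 ∧ u.2 ≠ v.2 := Iff.rfl

lemma graphG_eq (x : ℕ) : graphG x = avoid (fun i : Fin ((x - 1) / 2) =>
    (⟨i.1, by have := i.2; omega⟩ : Fin (x / 2 + 1))) := by
  ext u v
  rcases u with i | i <;> rcases v with k | k
  · simp [graphG]
  · simp only [graphG, SimpleGraph.deleteEdges_adj, completeBipartiteGraph_adj, Sum.isLeft_inl,
      Sum.isRight_inl, Sum.isLeft_inr, Sum.isRight_inr, Set.mem_ofPred_eq, Sym2.eq_iff,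
      Sum.inl.injEq, Sum.inr.injEq, avoid_adj_lr, ne_eq, Fin.ext_iff, reduceCtorEq, and_false,
      false_and, or_false]
    constructor
    · rintro ⟨-, h⟩ h'
      exact h ⟨i, k, h', rfl, rfl⟩
    · intro h
      refine ⟨by simp, ?_⟩
      rintro ⟨i', k', h1, h2, h3⟩
      exact h (by rw [h2, h3, h1])
  · simp only [graphG, SimpleGraph.deleteEdges_adj, completeBipartiteGraph_adj, Sum.isLeft_inl,
      Sum.isRight_inl, Sum.isLeft_inr, Sum.isRight_inr, Set.mem_ofPred_eq, Sym2.eq_iff,
      Sum.inl.injEq, Sum.inr.injEq, avoid_adj_rl, ne_eq, Fin.ext_iff, reduceCtorEq, and_false,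
      false_and, false_or]
    constructor
    · rintro ⟨-, h⟩ h'
      exact h ⟨k, i, h', rfl, rfl⟩
    · intro h
      refine ⟨by simp, ?_⟩
      rintro ⟨i', k', h1, h2, h3⟩
      exact h (by rw [h2, h3, h1])
  · simp [graphG]

lemma ncard_edgeSet_sum {V W : Type*} [Finite V] [Finite W] (G : SimpleGraph V)
    (H : SimpleGraph W) :
    (G ⊕g H).edgeSet.ncard = G.edgeSet.ncard + H.edgeSet.ncard := by
  rw [← Nat.card_coe_set_eq, ← Nat.card_coe_set_eq, ← Nat.card_coe_set_eq,
    Nat.card_congr (SimpleGraph.edgeSetSumEquiv (G := G) (H := H)), Nat.card_sum]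

lemma ncard_edgeSet_copiesK2 (j : ℕ) : (copiesK2 j).edgeSet.ncard = j := by
  classical
  have h := SimpleGraph.sum_degrees_eq_twice_card_edges (copiesK2 j)
  have hdeg : ∀ v, (copiesK2 j).degree v = 1 := by
    rintro ⟨a, s⟩
    rw [← SimpleGraph.card_neighborFinset_eq_degree, Finset.card_eq_one]
    refine ⟨(a, !s), ?_⟩
    ext ⟨b, t⟩
    simp only [SimpleGraph.mem_neighborFinset, copiesK2_adj, Finset.mem_singleton, Prod.mk.injEq]
    constructor
    · rintro ⟨h1, h2⟩
      refine ⟨h1.symm, ?_⟩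
      cases s <;> cases t <;> simp_all
    · rintro ⟨h1, h2⟩
      exact ⟨h1.symm, by rw [h2]; cases s <;> simp⟩
  simp only [hdeg, Finset.sum_const, Finset.card_univ, Fintype.card_prod, Fintype.card_fin,
    Fintype.card_bool, smul_eq_mul, mul_one] at h
  rw [Set.ncard_eq_toFinset_card', ← SimpleGraph.edgeFinset]
  omega

lemma avoid_neighborFinset_inl {q p : ℕ} (f : Fin q → Fin p) (i : Fin q)
    [Fintype ((avoid f).neighborSet (Sum.inl i))] :
    (avoid f).neighborFinset (Sum.inl i)
      = (Finset.univ.erase (f i)).map ⟨Sum.inr, Sum.inr_injective⟩ := by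
  ext (k | k)
  · simp
  · simp [ne_comm]

lemma ncard_edgeSet_avoid {q p : ℕ} (f : Fin q → Fin p) :
    (avoid f).edgeSet.ncard = q * (p - 1) := by
  classical
  set s : Finset (Fin q ⊕ Fin p) := Finset.univ.map ⟨Sum.inl, Sum.inl_injective⟩ with hs
  set t : Finset (Fin q ⊕ Fin p) := Finset.univ.map ⟨Sum.inr, Sum.inr_injective⟩ with ht
  have hB : (avoid f).IsBipartiteWith s t := by
    refine ⟨?_, ?_⟩
    · rw [Finset.disjoint_coe, Finset.disjoint_left]
      rintro (a | a) h1 h2 <;> simp [hs, ht] at h1 h2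
    · rintro (a | a) (b | b) hab <;> simp [hs, ht] at hab ⊢
  have h := SimpleGraph.isBipartiteWith_sum_degrees_eq_card_edges hB
  rw [Set.ncard_eq_toFinset_card', ← SimpleGraph.edgeFinset, ← h, hs, Finset.sum_map]
  have hdeg : ∀ i : Fin q, (avoid f).degree (Sum.inl i) = p - 1 := by
    intro i
    rw [← SimpleGraph.card_neighborFinset_eq_degree, avoid_neighborFinset_inl, Finset.card_map,
      Finset.card_erase_of_mem (Finset.mem_univ _), Finset.card_univ, Fintype.card_fin]
  simp only [Function.Embedding.coeFn_mk, hdeg, Finset.sum_const, Finset.card_univ,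
    Fintype.card_fin, smul_eq_mul]

/-- The graphs `avoid f ∪ jK₂` are admissible. -/
lemma avoid_admissible {q p j : ℕ} (f : Fin q → Fin p) (i1 i2 : Fin q) (h12 : f i1 ≠ f i2)
    (k0 : Fin p) (hk0 : ∀ i, f i ≠ k0) :
    Admissible (avoid f ⊕g copiesK2 j) (q + p + 2 * j) (3 + 2 * j) := by
  classical
  refine ⟨by simp [mul_comm], ?_, ?_, ?_⟩
  · rw [SimpleGraph.IsBipartite, SimpleGraph.colorable_sum]
    constructor
    · refine ⟨SimpleGraph.Coloring.mk (fun v => Sum.elim (fun _ => (0 : Fin 2)) (fun _ => 1) v) ?_⟩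
      rintro (a | a) (b | b) h
      · exact absurd h (avoid_adj_ll f a b)
      · simp
      · simp
      · exact absurd h (avoid_adj_rr f a b)
    · refine ⟨SimpleGraph.Coloring.mk (fun v => if v.2 then (0 : Fin 2) else 1) ?_⟩
      rintro ⟨a, s⟩ ⟨b, t⟩ h
      simp only [copiesK2_adj] at h
      cases s <;> cases t <;> simp_all
  · rintro ((i | k) | ⟨a, s⟩)
    · exact ⟨Sum.inl (Sum.inr k0), by simpa using hk0 i⟩
    · by_cases h : f i1 = k
      · exact ⟨Sum.inl (Sum.inl i2), by simpa using fun h' => h12 (h.trans h'.symm)⟩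
      · exact ⟨Sum.inl (Sum.inl i1), by simpa using h⟩
    · exact ⟨Sum.inr (a, !s), by simp⟩
  · -- total domination number
    have hlow : ∀ S : Finset ((Fin q ⊕ Fin p) ⊕ (Fin j × Bool)),
        IsTotalDominating (avoid f ⊕g copiesK2 j) S → 3 + 2 * j ≤ S.card := by
      intro S hS
      have h1 : ∀ w : Fin j × Bool, Sum.inr w ∈ S := by
        rintro ⟨a, s⟩
        obtain ⟨u, hu, hadj⟩ := hS (Sum.inr (a, !s))
        rcases u with u | ⟨b, t⟩
        · simp at hadj
        · simp only [SimpleGraph.sum_adj_inr, copiesK2_adj] at hadj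
          have h2 : a = b := hadj.1
          have h3 : t = s := by
            have := hadj.2
            cases s <;> cases t <;> simp_all
          rw [h2, ← h3]; exact hu
      obtain ⟨i, hi⟩ : ∃ i : Fin q, Sum.inl (Sum.inl i) ∈ S := by
        obtain ⟨u, hu, hadj⟩ := hS (Sum.inl (Sum.inr k0))
        rcases u with (i | k) | w
        · exact ⟨i, hu⟩
        · simp at hadj
        · simp at hadj
      obtain ⟨i', hi', hne⟩ : ∃ i' : Fin q, Sum.inl (Sum.inl i') ∈ S ∧ f i' ≠ f i := by
        obtain ⟨u, hu, hadj⟩ := hS (Sum.inl (Sum.inr (f i)))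
        rcases u with (i' | k) | w
        · exact ⟨i', hu, by simpa using hadj⟩
        · simp at hadj
        · simp at hadj
      obtain ⟨k, hk⟩ : ∃ k : Fin p, Sum.inl (Sum.inr k) ∈ S := by
        obtain ⟨u, hu, hadj⟩ := hS (Sum.inl (Sum.inl i))
        rcases u with (i' | k) | w
        · simp at hadj
        · exact ⟨k, hu⟩
        · simp at hadj
      have hii' : i ≠ i' := by rintro rfl; exact hne rfl
      have hsub : ({Sum.inl (Sum.inl i), Sum.inl (Sum.inl i'), Sum.inl (Sum.inr k)} :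
          Finset ((Fin q ⊕ Fin p) ⊕ (Fin j × Bool))) ∪
          (Finset.univ : Finset (Fin j × Bool)).map ⟨Sum.inr, Sum.inr_injective⟩ ⊆ S := by
        intro v hv
        rcases Finset.mem_union.mp hv with hv | hv
        · simp only [Finset.mem_insert, Finset.mem_singleton] at hv
          rcases hv with rfl | rfl | rfl
          · exact hi
          · exact hi'
          · exact hk
        · obtain ⟨w, -, rfl⟩ := Finset.mem_map.mp hv
          exact h1 w
      have hcard := Finset.card_le_card hsub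
      rw [Finset.card_union_of_disjoint, Finset.card_map, Finset.card_univ, Fintype.card_prod,
        Fintype.card_fin, Fintype.card_bool, Finset.card_insert_of_notMem,
        Finset.card_insert_of_notMem, Finset.card_singleton] at hcard
      · omega
      · simp
      · simp [hii']
      · rw [Finset.disjoint_left]
        intro v hv hv'
        obtain ⟨w, -, rfl⟩ := Finset.mem_map.mp hv'
        simp at hv
    have hup : ∃ S : Finset ((Fin q ⊕ Fin p) ⊕ (Fin j × Bool)),
        IsTotalDominating (avoid f ⊕g copiesK2 j) S ∧ S.card = 3 + 2 * j := by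
      have h12' : i1 ≠ i2 := by rintro rfl; exact h12 rfl
      refine ⟨({Sum.inl (Sum.inl i1), Sum.inl (Sum.inl i2), Sum.inl (Sum.inr k0)} :
          Finset ((Fin q ⊕ Fin p) ⊕ (Fin j × Bool))) ∪
          (Finset.univ : Finset (Fin j × Bool)).map ⟨Sum.inr, Sum.inr_injective⟩, ?_, ?_⟩
      · rintro ((i | k) | ⟨a, s⟩)
        · exact ⟨Sum.inl (Sum.inr k0), by simp, by simpa using hk0 i⟩
        · by_cases h : f i1 = k
          · exact ⟨Sum.inl (Sum.inl i2), by simp, by
              simpa using fun h' => h12 (h.trans h'.symm)⟩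
          · exact ⟨Sum.inl (Sum.inl i1), by simp, by simpa using h⟩
        · exact ⟨Sum.inr (a, !s), by simp, by simp⟩
      · rw [Finset.card_union_of_disjoint, Finset.card_map, Finset.card_univ, Fintype.card_prod,
          Fintype.card_fin, Fintype.card_bool, Finset.card_insert_of_notMem,
          Finset.card_insert_of_notMem, Finset.card_singleton]
        · omega
        · simp
        · simp [h12']
        · rw [Finset.disjoint_left]
          intro v hv hv'
          obtain ⟨w, -, rfl⟩ := Finset.mem_map.mp hv'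
          simp at hv
    obtain ⟨S, hS, hSc⟩ := hup
    apply le_antisymm
    · exact Nat.sInf_le ⟨S, hS, hSc⟩
    · have hne : {k : ℕ | ∃ S : Finset ((Fin q ⊕ Fin p) ⊕ (Fin j × Bool)),
          IsTotalDominating (avoid f ⊕g copiesK2 j) S ∧ S.card = k}.Nonempty := ⟨_, S, hS, hSc⟩
      obtain ⟨S', hS', hSc'⟩ := Nat.sInf_mem hne
      have := hlow S' hS'
      rw [hSc'] at this
      exact this

lemma avoid_size {q p j : ℕ} (f : Fin q → Fin p) :
    (avoid f ⊕g copiesK2 j).edgeSet.ncard = q * (p - 1) + j := by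
  rw [ncard_edgeSet_sum, ncard_edgeSet_avoid, ncard_edgeSet_copiesK2]

lemma graphGK_admissible (x j : ℕ) (hx : 5 ≤ x) :
    Admissible (graphGK x j) (x + 2 * j) (3 + 2 * j) := by
  have hp : (x - 1) / 2 + (x / 2 + 1) = x := by omega
  rw [graphGK, graphG_eq]
  have h := avoid_admissible (j := j) (fun i : Fin ((x - 1) / 2) =>
    (⟨i.1, by have := i.2; omega⟩ : Fin (x / 2 + 1)))
    ⟨0, by omega⟩ ⟨1, by omega⟩ (by simp) ⟨x / 2, by omega⟩ (by
      intro i
      have := i.2
      simp only [ne_eq, Fin.mk.injEq]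
      omega)
  rw [hp] at h
  exact h

lemma graphGK_size (x j : ℕ) :
    (graphGK x j).edgeSet.ncard = (x - 1) / 2 * (x / 2) + j := by
  rw [graphGK, graphG_eq, avoid_size, Nat.add_sub_cancel]

end Pool.Agent.Lib.P0479e2
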