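import Mathlib
import Pool.Agent.Lib.P0479e2.Extremal

namespace Pool.Agent.Lib.P0479e2

open Finset

/-! ### The alternative extremal graph, for `x ≥ 6` -/

/-- the map used for the alternative graph -/
def altMap (q p : ℕ) (hp : 3 ≤ p) : Fin q → Fin p :=
  fun i => if (i : ℕ) = 0 then ⟨2, by omega⟩ else ⟨1, by omega⟩

lemma alt_admissible (x j : ℕ) (hx : 6 ≤ x) :
    Admissible (avoid (altMap (x / 2) ((x - 1) / 2 + 1) (by omega)) ⊕g copiesK2 j)
      (x + 2 * j) (3 + 2 * j) := by
  have h := avoid_admissible (j := j) (altMap (x / 2) ((x - 1) / 2 + 1) (by omega))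
    ⟨0, by omega⟩ ⟨1, by omega⟩ (by simp [altMap]) ⟨0, by omega⟩ (by
      intro i
      simp only [altMap]
      split_ifs <;> simp)
  have hp : x / 2 + ((x - 1) / 2 + 1) = x := by omega
  rw [hp] at h
  exact h

lemma alt_size (x j : ℕ) (hx : 6 ≤ x) :
    (avoid (altMap (x / 2) ((x - 1) / 2 + 1) (by omega)) ⊕g copiesK2 j).edgeSet.ncard
      = (x - 1) / 2 * (x / 2) + j := by
  rw [avoid_size, Nat.add_sub_cancel, mul_comm]

/-- A distinguishing isomorphism invariant. -/
def Pend {V : Type*} (G : SimpleGraph V) (d : ℕ) : Prop :=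
  ∃ v w, G.Adj v w ∧ (∀ u, G.Adj v u → u = w) ∧ (G.neighborSet w).ncard = d

lemma Pend.iso {V W : Type*} {G : SimpleGraph V} {H : SimpleGraph W} (e : G ≃g H) {d : ℕ}
    (h : Pend G d) : Pend H d := by
  obtain ⟨v, w, hvw, hu, hd⟩ := h
  refine ⟨e v, e w, e.map_adj_iff.mpr hvw, ?_, ?_⟩
  · intro u hadj
    have h1 : G.Adj v (e.symm u) := by
      rw [← e.map_adj_iff]
      simpa using hadj
    have h2 := hu _ h1
    rw [← h2]
    simp
  · rw [← hd]
    have : H.neighborSet (e w) = e '' G.neighborSet w := by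
      ext u
      simp only [SimpleGraph.mem_neighborSet, Set.mem_image]
      constructor
      · intro h
        refine ⟨e.symm u, ?_, by simp⟩
        rw [← e.map_adj_iff]
        simpa using h
      · rintro ⟨u', h, rfl⟩
        exact e.map_adj_iff.mpr h
    rw [this]
    exact Set.ncard_image_of_injective _ e.injective

lemma avoid_sum_neighborSet {q p j : ℕ} (f : Fin q → Fin p) (i : Fin q) :
    ((avoid f ⊕g copiesK2 j).neighborSet (Sum.inl (Sum.inl i))).ncard = p - 1 := by
  classical
  have : (avoid f ⊕g copiesK2 j).neighborSet (Sum.inl (Sum.inl i))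
      = (((Finset.univ.erase (f i)).image
          (fun k => (Sum.inl (Sum.inr k) : (Fin q ⊕ Fin p) ⊕ (Fin j × Bool))) : Finset _) :
            Set ((Fin q ⊕ Fin p) ⊕ (Fin j × Bool))) := by
    ext ((a | k) | w)
    · simp
    · simp [ne_comm]
    · simp
  rw [this, Set.ncard_coe_finset, Finset.card_image_of_injective _ (fun a b h => by simpa using h),
    Finset.card_erase_of_mem (Finset.mem_univ _), Finset.card_univ, Fintype.card_fin]

lemma alt_pend (x j : ℕ) (hx : 6 ≤ x) :
    Pend (avoid (altMap (x / 2) ((x - 1) / 2 + 1) (by omega)) ⊕g copiesK2 j) ((x - 1) / 2) := by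
  refine ⟨Sum.inl (Sum.inr ⟨1, by omega⟩), Sum.inl (Sum.inl ⟨0, by omega⟩), ?_, ?_, ?_⟩
  · simp [altMap]
  · rintro ((i | k) | w) h
    · simp only [SimpleGraph.sum_adj_inl, avoid_adj_rl, altMap] at h
      have : (i : ℕ) = 0 := by
        by_contra hne
        simp [hne] at h
      congr 2
      exact Fin.ext this
    · simp at h
    · simp at h
  · rw [avoid_sum_neighborSet, Nat.add_sub_cancel]

lemma graphGK_not_pend (x j : ℕ) (hx : 6 ≤ x) : ¬ Pend (graphGK x j) ((x - 1) / 2) := by
  rw [graphGK, graphG_eq]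
  rintro ⟨v, w, hvw, hu, hd⟩
  rcases v with (i | k) | ⟨a, s⟩
  · -- `v = y_i` has at least two neighbours
    obtain ⟨k1, k2, h1, h2, h12⟩ : ∃ k1 k2 : Fin (x / 2 + 1), (k1 : ℕ) ≠ i ∧ (k2 : ℕ) ≠ i ∧
        k1 ≠ k2 := by
      by_cases h0 : (i : ℕ) = 0
      · exact ⟨⟨1, by omega⟩, ⟨2, by omega⟩, by simp [h0], by simp [h0], by simp⟩
      · by_cases h1 : (i : ℕ) = 1
        · exact ⟨⟨0, by omega⟩, ⟨2, by omega⟩, by simp [h1], by simp [h1], by simp⟩
        · exact ⟨⟨0, by omega⟩, ⟨1, by omega⟩, by simpa using fun h => h0 h.symm,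
            by simpa using fun h => h1 h.symm, by simp⟩
    have e1 := hu (Sum.inl (Sum.inr k1)) (by simpa [Fin.ext_iff] using fun h => h1 h.symm)
    have e2 := hu (Sum.inl (Sum.inr k2)) (by simpa [Fin.ext_iff] using fun h => h2 h.symm)
    rw [← e2] at e1
    exact h12 (by simpa using e1)
  · -- `v = x_k`
    rcases w with (i | k') | w
    · rw [avoid_sum_neighborSet, Nat.add_sub_cancel] at hd
      -- x odd, hence x ≥ 7 and there are at least three `y`s
      obtain ⟨i1, i2, h1, h2, h12⟩ : ∃ i1 i2 : Fin ((x - 1) / 2), (i1 : ℕ) ≠ k ∧ (i2 : ℕ) ≠ k ∧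
          i1 ≠ i2 := by
        by_cases h0 : (k : ℕ) = 0
        · exact ⟨⟨1, by omega⟩, ⟨2, by omega⟩, by simp [h0], by simp [h0], by simp⟩
        · by_cases h1 : (k : ℕ) = 1
          · exact ⟨⟨0, by omega⟩, ⟨2, by omega⟩, by simp [h1], by simp [h1], by simp⟩
          · exact ⟨⟨0, by omega⟩, ⟨1, by omega⟩, by simpa using fun h => h0 h.symm,
              by simpa using fun h => h1 h.symm, by simp⟩
      have e1 := hu (Sum.inl (Sum.inl i1)) (by simpa [Fin.ext_iff] using h1)
      have e2 := hu (Sum.inl (Sum.inl i2)) (by simpa [Fin.ext_iff] using h2)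
      rw [← e2] at e1
      exact h12 (by simpa using e1)
    · simp at hvw
    · simp at hvw
  · rcases w with (i | k') | ⟨b, t⟩
    · simp at hvw
    · simp at hvw
    · have hset : (avoid (fun i : Fin ((x - 1) / 2) =>
          (⟨i.1, by have := i.2; omega⟩ : Fin (x / 2 + 1))) ⊕g copiesK2 j).neighborSet
            (Sum.inr (b, t)) = {Sum.inr (b, !t)} := by
        ext ((i | k) | ⟨c, r⟩)
        · simp
        · simp
        · simp only [SimpleGraph.mem_neighborSet, SimpleGraph.sum_adj_inr, copiesK2_adj,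
            Set.mem_singleton_iff, Sum.inr.injEq, Prod.mk.injEq]
          cases t <;> cases r <;> simp [eq_comm]
      rw [hset, Set.ncard_singleton] at hd
      omega

/-! ### Structure of admissible graphs -/

section Structure

variable {V : Type*} [Fintype V]

/-- Data extracted from a bipartite graph with odd total domination number. -/
structure Data (G : SimpleGraph V) [DecidableEq V] (X Y S : Finset V) : Prop where
  bip : G.IsBipartiteWith X Y
  cover : ∀ v, v ∈ X ∨ v ∈ Y
  disj : Disjoint X Y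
  card : X.card + Y.card = Fintype.card V
  iso : ∀ v, ∃ w, G.Adj v w
  dom : IsTotalDominating G S
  min : ∀ S' : Finset V, IsTotalDominating G S' → S.card ≤ S'.card
  scard : S.card = totalDomNumber G
  split : S.card = (S ∩ X).card + (S ∩ Y).card
  pos : 1 ≤ (S ∩ X).card
  lt : (S ∩ X).card < (S ∩ Y).card

theorem exists_data [DecidableEq V] (G : SimpleGraph V) (hbip : G.IsBipartite)
    (hiso : ∀ v : V, ∃ w : V, G.Adj v w) (hodd : Odd (totalDomNumber G))
    (h3 : 3 ≤ totalDomNumber G) : ∃ X Y S : Finset V, Data G X Y S := by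
  classical
  obtain ⟨C⟩ := hbip
  set X : Finset V := Finset.univ.filter (fun v => C v = 0) with hX
  set Y : Finset V := Finset.univ.filter (fun v => C v = 1) with hY
  have hXY : ∀ v, v ∈ X ∨ v ∈ Y := by
    intro v
    simp only [hX, hY, Finset.mem_filter, Finset.mem_univ, true_and]
    have : ∀ i : Fin 2, i = 0 ∨ i = 1 := by decide
    exact this (C v)
  have hdisj : Disjoint X Y := by
    rw [Finset.disjoint_left]
    intro v hv hv'
    simp only [hX, hY, Finset.mem_filter, Finset.mem_univ, true_and] at hv hv'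
    rw [hv] at hv'
    exact absurd hv' (by decide)
  have hcard : X.card + Y.card = Fintype.card V := by
    rw [← Finset.card_union_of_disjoint hdisj, ← Finset.card_univ]
    congr 1
    ext v
    simpa using hXY v
  have hB : G.IsBipartiteWith X Y := by
    refine ⟨by exact_mod_cast hdisj, ?_⟩
    intro v w hvw
    have hne := C.valid hvw
    simp only [hX, hY, Finset.coe_filter, Finset.mem_univ, true_and, Set.mem_ofPred_eq]
    have : ∀ i j : Fin 2, i ≠ j → (i = 0 ∧ j = 1) ∨ (i = 1 ∧ j = 0) := by decide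
    exact this _ _ hne
  have hne : {k : ℕ | ∃ S : Finset V, IsTotalDominating G S ∧ S.card = k}.Nonempty := by
    refine ⟨Fintype.card V, Finset.univ, ?_, Finset.card_univ⟩
    intro v
    obtain ⟨w, hw⟩ := hiso v
    exact ⟨w, Finset.mem_univ _, hw⟩
  obtain ⟨S, hS, hSc⟩ : ∃ S : Finset V, IsTotalDominating G S ∧ S.card = totalDomNumber G :=
    Nat.sInf_mem hne
  have hmin : ∀ S' : Finset V, IsTotalDominating G S' → S.card ≤ S'.card := by
    intro S' hS'
    rw [hSc]
    exact Nat.sInf_le ⟨S', hS', rfl⟩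
  have hScard : S.card = (S ∩ X).card + (S ∩ Y).card := by
    rw [← Finset.card_union_of_disjoint (Finset.disjoint_of_subset_left Finset.inter_subset_right
      (Finset.disjoint_of_subset_right Finset.inter_subset_right hdisj))]
    congr 1
    ext v
    simp only [Finset.mem_union, Finset.mem_inter]
    constructor
    · intro hv
      rcases hXY v with h | h
      · exact Or.inl ⟨hv, h⟩
      · exact Or.inr ⟨hv, h⟩
    · rintro (h | h) <;> exact h.1
  have hVne : 0 < S.card := by omega
  obtain ⟨v0, hv0⟩ := Finset.card_pos.mp hVne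
  have hXn : ∃ x, x ∈ X := by
    rcases hXY v0 with h | h
    · exact ⟨v0, h⟩
    · obtain ⟨w, hw⟩ := hiso v0
      exact ⟨w, hB.symm.mem_of_mem_adj h hw⟩
  have hYn : ∃ y, y ∈ Y := by
    obtain ⟨x, hx⟩ := hXn
    obtain ⟨w, hw⟩ := hiso x
    exact ⟨w, hB.mem_of_mem_adj hx hw⟩
  have hSX : 1 ≤ (S ∩ X).card := by
    obtain ⟨y, hy⟩ := hYn
    obtain ⟨u, hu, hadj⟩ := hS y
    exact Finset.card_pos.mpr ⟨u, Finset.mem_inter.mpr ⟨hu, hB.symm.mem_of_mem_adj hy hadj⟩⟩
  have hSY : 1 ≤ (S ∩ Y).card := by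
    obtain ⟨x, hx⟩ := hXn
    obtain ⟨u, hu, hadj⟩ := hS x
    exact Finset.card_pos.mpr ⟨u, Finset.mem_inter.mpr ⟨hu, hB.mem_of_mem_adj hx hadj⟩⟩
  rcases lt_trichotomy (S ∩ X).card (S ∩ Y).card with h | h | h
  · exact ⟨X, Y, S, hB, hXY, hdisj, hcard, hiso, hS, hmin, hSc, hScard, hSX, h⟩
  · exfalso
    rw [← hSc, hScard, h] at hodd
    exact (Nat.not_odd_iff_even.mpr ⟨_, rfl⟩) hodd
  · exact ⟨Y, X, S, hB.symm, fun v => (hXY v).symm, hdisj.symm, by omega, hiso, hS, hmin, hSc,
      by omega, hSY, h⟩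

variable [DecidableEq V] {G : SimpleGraph V} {X Y S : Finset V}

lemma Data.xdom (h : Data G X Y S) : ∀ x ∈ X, ∃ y ∈ S ∩ Y, G.Adj x y := by
  intro x hx
  obtain ⟨u, hu, hadj⟩ := h.dom x
  exact ⟨u, Finset.mem_inter.mpr ⟨hu, h.bip.mem_of_mem_adj hx hadj⟩, hadj⟩

lemma Data.ydom (h : Data G X Y S) : ∀ y ∈ Y, ∃ x ∈ S ∩ X, G.Adj x y := by
  intro y hy
  obtain ⟨u, hu, hadj⟩ := h.dom y
  exact ⟨u, Finset.mem_inter.mpr ⟨hu, h.bip.symm.mem_of_mem_adj hy hadj⟩, hadj.symm⟩

lemma Data.ymin (h : Data G X Y S) (T : Finset V) (hT : ∀ x ∈ X, ∃ y ∈ T, G.Adj x y) :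
    (S ∩ Y).card ≤ T.card := by
  have hdom : IsTotalDominating G ((S ∩ X) ∪ T) := by
    intro v
    rcases h.cover v with hv | hv
    · obtain ⟨y, hy, hadj⟩ := hT v hv
      exact ⟨y, Finset.mem_union_right _ hy, hadj⟩
    · obtain ⟨x, hx, hadj⟩ := h.ydom v hv
      exact ⟨x, Finset.mem_union_left _ hx, hadj.symm⟩
  have h1 := h.min _ hdom
  have h2 := Finset.card_union_le (S ∩ X) T
  have h3 := h.split
  omega

lemma Data.xmin (h : Data G X Y S) (T : Finset V) (hT : ∀ y ∈ Y, ∃ x ∈ T, G.Adj x y) :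
    (S ∩ X).card ≤ T.card := by
  have hdom : IsTotalDominating G (T ∪ (S ∩ Y)) := by
    intro v
    rcases h.cover v with hv | hv
    · obtain ⟨y, hy, hadj⟩ := h.xdom v hv
      exact ⟨y, Finset.mem_union_right _ hy, hadj⟩
    · obtain ⟨x, hx, hadj⟩ := hT v hv
      exact ⟨x, Finset.mem_union_left _ hx, hadj.symm⟩
  have h1 := h.min _ hdom
  have h2 := Finset.card_union_le T (S ∩ Y)
  have h3 := h.split
  omega

lemma Data.lt_card (h : Data G X Y S) : (S ∩ Y).card < X.card := by
  by_contra hcon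
  push Not at hcon
  have hsub : X ⊆ S ∩ X := by
    intro x hx
    obtain ⟨y, hy⟩ := h.iso x
    have hyY : y ∈ Y := h.bip.mem_of_mem_adj hx hy
    obtain ⟨u, hu, huy⟩ := h.ydom y hyY
    by_cases hux : u = x
    · rw [← hux]; exact hu
    · exfalso
      choose g hg using h.iso
      have huX : u ∈ X := (Finset.mem_inter.mp hu).2
      have h1 := h.ymin (insert y (((X.erase x).erase u).image g)) (by
        intro w hw
        by_cases h1 : w = x
        · exact ⟨y, Finset.mem_insert_self _ _, by rw [h1]; exact hy⟩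
        · by_cases h2 : w = u
          · exact ⟨y, Finset.mem_insert_self _ _, by rw [h2]; exact huy⟩
          · exact ⟨g w, Finset.mem_insert_of_mem (Finset.mem_image_of_mem g
              (Finset.mem_erase.mpr ⟨h2, Finset.mem_erase.mpr ⟨h1, hw⟩⟩)), hg w⟩)
      have h2 := Finset.card_insert_le y (((X.erase x).erase u).image g)
      have h3 := Finset.card_image_le (s := (X.erase x).erase u) (f := g)
      rw [Finset.card_erase_of_mem (Finset.mem_erase.mpr ⟨hux, huX⟩),
        Finset.card_erase_of_mem hx] at h3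
      have h4 : 2 ≤ X.card := by
        have : ({x, u} : Finset V) ⊆ X := by
          intro w hw
          simp only [Finset.mem_insert, Finset.mem_singleton] at hw
          rcases hw with rfl | rfl
          · exact hx
          · exact huX
        have := Finset.card_le_card this
        rwa [Finset.card_pair (fun h => hux h.symm)] at this
      omega
  have h1 := Finset.card_le_card hsub
  have h2 := h.lt
  have h3 := h.ymin (X.image (fun x => (h.iso x).choose)) (fun x hx =>
    ⟨_, Finset.mem_image_of_mem _ hx, (h.iso x).choose_spec⟩)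
  have h4 := Finset.card_image_le (s := X) (f := fun x => (h.iso x).choose)
  omega

lemma Data.order (h : Data G X Y S) : totalDomNumber G + 2 ≤ Fintype.card V := by
  have h1 := h.lt_card
  have h2 : (S ∩ Y).card ≤ Y.card := Finset.card_le_card Finset.inter_subset_right
  have h3 := h.card
  have h4 := h.split
  have h5 := h.scard
  have h6 := h.lt
  omega

end Structure

end Pool.Agent.Lib.P0479e2
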