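import Mathlib
import Pool.Agent.Lib.P0479e2.Uniq

namespace Pool.Agent.Lib.P0479e2

open Finset

section

variable {V : Type*} [Fintype V] [DecidableEq V] {G : SimpleGraph V} {X Y S : Finset V}

lemma Data.not_adj_XX (h : Data G X Y S) {u v : V} (hu : u ∈ X) (hv : v ∈ X) : ¬ G.Adj u v := by
  intro hadj
  have : v ∈ Y := h.bip.mem_of_mem_adj hu hadj
  exact (Finset.disjoint_left.mp h.disj hv) this

lemma Data.not_adj_YY (h : Data G X Y S) {u v : V} (hu : u ∈ Y) (hv : v ∈ Y) : ¬ G.Adj u v := by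
  intro hadj
  have : v ∈ X := h.bip.symm.mem_of_mem_adj hu hadj
  exact (Finset.disjoint_left.mp h.disj this) hv

/-- private neighbours -/
lemma Data.priv (h : Data G X Y S) : ∀ y ∈ S ∩ Y, ∃ z ∈ X, G.Adj z y ∧
    ∀ y' ∈ S ∩ Y, y' ≠ y → ¬ G.Adj z y' := by
  intro y hy
  by_contra hcon
  push Not at hcon
  have hdom : ∀ x ∈ X, ∃ y' ∈ (S ∩ Y).erase y, G.Adj x y' := by
    intro x hx
    by_cases hxy : G.Adj x y
    · obtain ⟨y', hy', hne, hr⟩ := hcon x hx hxy
      exact ⟨y', Finset.mem_erase.mpr ⟨hne, hy'⟩, hr⟩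
    · obtain ⟨y', hy', hr⟩ := h.xdom x hx
      refine ⟨y', Finset.mem_erase.mpr ⟨?_, hy'⟩, hr⟩
      rintro rfl
      exact hxy hr
  have h1 := h.ymin _ hdom
  have h2 := Finset.card_erase_of_mem hy
  have h3 : 0 < (S ∩ Y).card := Finset.card_pos.mpr ⟨y, hy⟩
  omega

/-- Structure in the extreme case `n = γ + 2`. -/
lemma Data.struct (h : Data G X Y S) (hn : Fintype.card V = totalDomNumber G + 2) :
    ∃ (z : V → V) (x0 y1 y2 : V), y1 ∈ Y ∧ y2 ∈ Y ∧ y1 ≠ y2 ∧ x0 ∈ X ∧ (∀ y ∈ Y, z y ∈ X) ∧
      (∀ y ∈ Y, z y ≠ x0) ∧ (∀ y ∈ Y, ∀ y' ∈ Y, G.Adj (z y) y' ↔ y' = y) ∧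
      (∀ y ∈ Y, G.Adj x0 y ↔ (y = y1 ∨ y = y2)) ∧ Fintype.card V = 2 * Y.card + 1 := by
  classical
  have h1 := h.lt_card
  have h2 : (S ∩ Y).card ≤ Y.card := Finset.card_le_card Finset.inter_subset_right
  have h3 := h.card
  have h4 := h.split
  have h5 := h.scard
  have h6 := h.lt
  have hSY : S ∩ Y = Y := Finset.eq_of_subset_of_card_le Finset.inter_subset_right (by omega)
  have hXc : X.card = Y.card + 1 := by omega
  have ha : (S ∩ X).card + 1 = Y.card := by omega
  have hpriv := h.priv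
  rw [hSY] at hpriv
  choose! z hzX hzadj hzpriv using hpriv
  have hzz : ∀ y ∈ Y, ∀ y' ∈ Y, G.Adj (z y) y' ↔ y' = y := by
    intro y hy y' hy'
    constructor
    · intro hadj
      by_contra hne
      exact hzpriv y hy y' hy' hne hadj
    · rintro rfl
      exact hzadj y' hy
  have hzinj : Set.InjOn z (Y : Set V) := by
    intro y hy y' hy' heq
    have := (hzz y hy y' hy').mp (by rw [heq]; exact hzadj y' hy')
    exact this.symm
  have hZc : (Y.image z).card = Y.card := Finset.card_image_of_injOn hzinj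
  have hZX : Y.image z ⊆ X := by
    intro w hw
    obtain ⟨y, hy, rfl⟩ := Finset.mem_image.mp hw
    exact hzX y hy
  have hdiff : (X \ Y.image z).card = 1 := by
    rw [Finset.card_sdiff_of_subset hZX]; omega
  obtain ⟨x0, hx0⟩ := Finset.card_eq_one.mp hdiff
  have hx0' : x0 ∈ X \ Y.image z := by rw [hx0]; exact Finset.mem_singleton_self _
  rw [Finset.mem_sdiff] at hx0'
  have hXmem : ∀ x ∈ X, x = x0 ∨ ∃ y ∈ Y, z y = x := by
    intro x hx
    by_cases hxz : x ∈ Y.image z
    · exact Or.inr (Finset.mem_image.mp hxz)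
    · left
      have : x ∈ X \ Y.image z := Finset.mem_sdiff.mpr ⟨hx, hxz⟩
      rw [hx0] at this
      exact Finset.mem_singleton.mp this
  -- neighbours of x0
  set N : Finset V := Y.filter (fun y => G.Adj x0 y) with hN
  have hNle : N.card ≤ 2 := by
    have hdom : ∀ y ∈ Y, ∃ x ∈ insert x0 ((Y \ N).image z), G.Adj x y := by
      intro y hy
      by_cases hyN : y ∈ N
      · exact ⟨x0, Finset.mem_insert_self _ _, (Finset.mem_filter.mp hyN).2⟩
      · exact ⟨z y, Finset.mem_insert_of_mem (Finset.mem_image_of_mem z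
          (Finset.mem_sdiff.mpr ⟨hy, hyN⟩)), hzadj y hy⟩
    have h7 := h.xmin _ hdom
    have h8 := Finset.card_insert_le x0 ((Y \ N).image z)
    have h9 := Finset.card_image_le (s := Y \ N) (f := z)
    have hNY : N ⊆ Y := Finset.filter_subset _ _
    rw [Finset.card_sdiff_of_subset hNY] at h9
    have h10 : N.card ≤ Y.card := Finset.card_le_card hNY
    omega
  have hNge : 2 ≤ N.card := by
    -- `Y` is covered by the neighbourhoods of `S ∩ X`
    have hcov : Y ⊆ N ∪ ((S ∩ X).erase x0).biUnion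
        (fun x => Y.filter (fun y => G.Adj x y)) := by
      intro y hy
      obtain ⟨x, hx, hadj⟩ := h.ydom y hy
      by_cases hxx : x = x0
      · exact Finset.mem_union_left _ (Finset.mem_filter.mpr ⟨hy, by rw [← hxx]; exact hadj⟩)
      · exact Finset.mem_union_right _ (Finset.mem_biUnion.mpr
          ⟨x, Finset.mem_erase.mpr ⟨hxx, hx⟩, Finset.mem_filter.mpr ⟨hy, hadj⟩⟩)
    have hone : ∀ x ∈ (S ∩ X).erase x0, (Y.filter (fun y => G.Adj x y)).card ≤ 1 := by
      intro x hx
      rw [Finset.mem_erase] at hx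
      rcases hXmem x (Finset.mem_inter.mp hx.2).2 with h7 | ⟨y, hy, rfl⟩
      · exact absurd h7 hx.1
      · rw [Finset.card_le_one]
        intro a ha b hb
        rw [Finset.mem_filter] at ha hb
        rw [(hzz y hy a ha.1).mp ha.2, (hzz y hy b hb.1).mp hb.2]
    have h7 := Finset.card_le_card hcov
    have h8 := Finset.card_union_le N (((S ∩ X).erase x0).biUnion
        (fun x => Y.filter (fun y => G.Adj x y)))
    have h9 := Finset.card_biUnion_le_card_mul ((S ∩ X).erase x0)
      (fun x => Y.filter (fun y => G.Adj x y)) 1 hone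
    by_cases hx0S : x0 ∈ S ∩ X
    · rw [Finset.card_erase_of_mem hx0S] at h9
      have : 0 < (S ∩ X).card := Finset.card_pos.mpr ⟨x0, hx0S⟩
      omega
    · -- `x0 ∉ S`: then `N` is not needed
      exfalso
      have hcov' : Y ⊆ ((S ∩ X).erase x0).biUnion
          (fun x => Y.filter (fun y => G.Adj x y)) := by
        intro y hy
        obtain ⟨x, hx, hadj⟩ := h.ydom y hy
        have hxx : x ≠ x0 := by rintro rfl; exact hx0S hx
        exact Finset.mem_biUnion.mpr
          ⟨x, Finset.mem_erase.mpr ⟨hxx, hx⟩, Finset.mem_filter.mpr ⟨hy, hadj⟩⟩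
      have h7 := Finset.card_le_card hcov'
      rw [Finset.erase_eq_of_notMem hx0S] at h9 h7
      omega
  obtain ⟨y1, y2, hy12, hNeq⟩ := Finset.card_eq_two.mp (le_antisymm hNle hNge)
  have hy1 : y1 ∈ N := by rw [hNeq]; simp
  have hy2 : y2 ∈ N := by rw [hNeq]; simp
  refine ⟨z, x0, y1, y2, (Finset.mem_filter.mp hy1).1, (Finset.mem_filter.mp hy2).1, hy12,
    hx0'.1, hzX, ?_, hzz, ?_, by omega⟩
  · intro y hy heq
    exact hx0'.2 (Finset.mem_image.mpr ⟨y, hy, heq⟩)
  · intro y hy
    have : y ∈ N ↔ y = y1 ∨ y = y2 := by rw [hNeq]; simp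
    rw [← this, hN, Finset.mem_filter]
    exact ⟨fun h => ⟨hy, h⟩, fun h => h.2⟩

/-- In the extreme case the graph is `P₅ ∪ j K₂`. -/
lemma Data.iso_graphGK (h : Data G X Y S) (hn : Fintype.card V = totalDomNumber G + 2)
    (j : ℕ) (hj : totalDomNumber G = 3 + 2 * j) : Nonempty (graphGK 5 j ≃g G) := by
  classical
  obtain ⟨z, x0, y1, y2, hy1, hy2, hy12, hx0, hzX, hzx0, hzz, hx0adj, hcard⟩ := h.struct hn
  set R : Finset V := Y \ {y1, y2} with hR
  have hRc : R.card = j := by
    rw [hR, Finset.card_sdiff_of_subset, Finset.card_pair hy12]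
    · omega
    · intro w hw
      simp only [Finset.mem_insert, Finset.mem_singleton] at hw
      rcases hw with rfl | rfl
      · exact hy1
      · exact hy2
  let e : Fin j ≃ R := (Fintype.equivFinOfCardEq (by simpa using hRc)).symm
  have heY : ∀ a, ((e a : R) : V) ∈ Y := fun a => (Finset.mem_sdiff.mp (e a).2).1
  have hene : ∀ a, ((e a : R) : V) ≠ y1 ∧ ((e a : R) : V) ≠ y2 := by
    intro a
    have := (Finset.mem_sdiff.mp (e a).2).2
    simp only [Finset.mem_insert, Finset.mem_singleton, not_or] at this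
    exact this
  have heinj : ∀ a b, ((e a : R) : V) = (e b : R) ↔ a = b := by
    intro a b
    rw [← Subtype.ext_iff, e.apply_eq_iff_eq]
  let φ : ((Fin 2 ⊕ Fin 3) ⊕ (Fin j × Bool)) → V := fun u => match u with
    | Sum.inl (Sum.inl i) => if i = 0 then y1 else y2
    | Sum.inl (Sum.inr k) => if k = 0 then z y2 else if k = 1 then z y1 else x0
    | Sum.inr (a, s) => if s then z (e a) else (e a : R)
  have hXX : ∀ u v : V, u ∈ X → v ∈ X → ¬ G.Adj u v := fun u v hu hv => h.not_adj_XX hu hv
  have hYY : ∀ u v : V, u ∈ Y → v ∈ Y → ¬ G.Adj u v := fun u v hu hv => h.not_adj_YY hu hv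
  have hzz' : ∀ y ∈ Y, ∀ y' ∈ Y, G.Adj y' (z y) ↔ y' = y := by
    intro y hy y' hy'; rw [G.adj_comm]; exact hzz y hy y' hy'
  have hx0adj' : ∀ y ∈ Y, G.Adj y x0 ↔ (y = y1 ∨ y = y2) := by
    intro y hy; rw [G.adj_comm]; exact hx0adj y hy
  have hy21 : y2 ≠ y1 := hy12.symm
  have hadj : ∀ u v, G.Adj (φ u) (φ v) ↔ (avoid (fun i : Fin 2 =>
      (⟨i.1, by have := i.2; omega⟩ : Fin 3)) ⊕g copiesK2 j).Adj u v := by
    rintro ((i | k) | ⟨a, s⟩) ((i' | k') | ⟨b, t⟩)
    · simp only [φ, SimpleGraph.sum_adj_inl, avoid_adj_ll, iff_false]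
      split_ifs <;> exact hYY _ _ (by assumption) (by assumption)
    · simp only [φ, SimpleGraph.sum_adj_inl, avoid_adj_lr]
      fin_cases i <;> fin_cases k' <;> simp [hzz', hx0adj', hy1, hy2, hy12, hy21]
    · have hno : ¬ (avoid (fun i : Fin 2 => (⟨i.1, by have := i.2; omega⟩ : Fin 3))
          ⊕g copiesK2 j).Adj (Sum.inl (Sum.inl i)) (Sum.inr (b, t)) := by simp
      simp only [hno, iff_false, φ]
      cases t
      · simp only [Bool.false_eq_true, if_false]
        split_ifs
        · exact hYY _ _ hy1 (heY b)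
        · exact hYY _ _ hy2 (heY b)
      · simp only [if_true]
        split_ifs
        · rw [hzz' _ (heY b) _ hy1]; exact fun h => (hene b).1 h.symm
        · rw [hzz' _ (heY b) _ hy2]; exact fun h => (hene b).2 h.symm
    · simp only [φ, SimpleGraph.sum_adj_inl, avoid_adj_rl]
      fin_cases i' <;> fin_cases k <;> simp [hzz, hx0adj, hy1, hy2, hy12, hy21]
    · simp only [φ, SimpleGraph.sum_adj_inl, avoid_adj_rr, iff_false]
      split_ifs <;> exact hXX _ _ (by first | assumption | exact hzX _ hy1 | exact hzX _ hy2)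
        (by first | assumption | exact hzX _ hy1 | exact hzX _ hy2)
    · have hno : ¬ (avoid (fun i : Fin 2 => (⟨i.1, by have := i.2; omega⟩ : Fin 3))
          ⊕g copiesK2 j).Adj (Sum.inl (Sum.inr k)) (Sum.inr (b, t)) := by simp
      simp only [hno, iff_false, φ]
      cases t
      · simp only [Bool.false_eq_true, if_false]
        split_ifs
        · rw [hzz _ hy2 _ (heY b)]; exact (hene b).2
        · rw [hzz _ hy1 _ (heY b)]; exact (hene b).1
        · rw [hx0adj _ (heY b)]; exact fun h => h.elim (hene b).1 (hene b).2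
      · simp only [if_true]
        split_ifs
        · exact hXX _ _ (hzX _ hy2) (hzX _ (heY b))
        · exact hXX _ _ (hzX _ hy1) (hzX _ (heY b))
        · exact hXX _ _ hx0 (hzX _ (heY b))
    · have hno : ¬ (avoid (fun i : Fin 2 => (⟨i.1, by have := i.2; omega⟩ : Fin 3))
          ⊕g copiesK2 j).Adj (Sum.inr (a, s)) (Sum.inl (Sum.inl i')) := by simp
      simp only [hno, iff_false, φ]
      cases s
      · simp only [Bool.false_eq_true, if_false]
        split_ifs
        · exact hYY _ _ (heY a) hy1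
        · exact hYY _ _ (heY a) hy2
      · simp only [if_true]
        split_ifs
        · rw [hzz _ (heY a) _ hy1]; exact fun h => (hene a).1 h.symm
        · rw [hzz _ (heY a) _ hy2]; exact fun h => (hene a).2 h.symm
    · have hno : ¬ (avoid (fun i : Fin 2 => (⟨i.1, by have := i.2; omega⟩ : Fin 3))
          ⊕g copiesK2 j).Adj (Sum.inr (a, s)) (Sum.inl (Sum.inr k')) := by simp
      simp only [hno, iff_false, φ]
      cases s
      · simp only [Bool.false_eq_true, if_false]
        split_ifs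
        · rw [hzz' _ hy2 _ (heY a)]; exact (hene a).2
        · rw [hzz' _ hy1 _ (heY a)]; exact (hene a).1
        · rw [hx0adj' _ (heY a)]; exact fun h => h.elim (hene a).1 (hene a).2
      · simp only [if_true]
        split_ifs
        · exact hXX _ _ (hzX _ (heY a)) (hzX _ hy2)
        · exact hXX _ _ (hzX _ (heY a)) (hzX _ hy1)
        · exact hXX _ _ (hzX _ (heY a)) hx0
    · simp only [φ, SimpleGraph.sum_adj_inr, copiesK2_adj]
      cases s <;> cases t
      · simpa using hYY _ _ (heY a) (heY b)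
      · simp only [Bool.false_eq_true, if_false, if_true]
        rw [hzz' _ (heY b) _ (heY a), heinj]
        simp
      · simp only [Bool.false_eq_true, if_false, if_true]
        rw [hzz _ (heY a) _ (heY b), heinj]
        simp [eq_comm]
      · simpa using hXX _ _ (hzX _ (heY a)) (hzX _ (heY b))
  have hinj : Function.Injective φ := by
    intro u v huv
    have hnb : ∀ w, (avoid (fun i : Fin 2 =>
      (⟨i.1, by have := i.2; omega⟩ : Fin 3)) ⊕g copiesK2 j).Adj u w ↔
        (avoid (fun i : Fin 2 =>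
      (⟨i.1, by have := i.2; omega⟩ : Fin 3)) ⊕g copiesK2 j).Adj v w := by
      intro w
      rw [← hadj, ← hadj, huv]
    rcases u with (i | k) | ⟨a, s⟩
    · rcases v with (i' | k') | ⟨b, t⟩
      · have h1 := hnb (Sum.inl (Sum.inr 0))
        have h2 := hnb (Sum.inl (Sum.inr 1))
        fin_cases i <;> fin_cases i' <;> simp at h1 h2 ⊢
      · have h1 := hnb (Sum.inl (Sum.inr 2))
        fin_cases i <;> simp at h1
      · have h1 := hnb (Sum.inr (b, !t))
        simp at h1
    · rcases v with (i' | k') | ⟨b, t⟩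
      · have h1 := hnb (Sum.inl (Sum.inr 2))
        fin_cases i' <;> simp at h1
      · have h1 := hnb (Sum.inl (Sum.inl 0))
        have h2 := hnb (Sum.inl (Sum.inl 1))
        fin_cases k <;> fin_cases k' <;> simp at h1 h2 ⊢
      · have h1 := hnb (Sum.inr (b, !t))
        simp at h1
    · have h1 := hnb (Sum.inr (a, !s))
      rcases v with (i' | k') | ⟨b, t⟩
      · simp at h1
      · simp at h1
      · simp only [SimpleGraph.sum_adj_inr, copiesK2_adj] at h1
        have h2 := h1.mp ⟨by trivial, by cases s <;> simp⟩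
        have h3 : s = t := by
          have := h2.2
          cases s <;> cases t <;> simp_all
        rw [h2.1, h3]
  have hcardeq : Fintype.card ((Fin 2 ⊕ Fin 3) ⊕ (Fin j × Bool)) = Fintype.card V := by
    simp only [Fintype.card_sum, Fintype.card_fin, Fintype.card_prod, Fintype.card_bool]
    omega
  have hbij : Function.Bijective φ :=
    (Fintype.bijective_iff_injective_and_card φ).mpr ⟨hinj, hcardeq⟩
  rw [graphGK, graphG_eq]
  exact ⟨⟨Equiv.ofBijective φ hbij, fun {u v} => hadj u v⟩⟩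

end

end Pool.Agent.Lib.P0479e2
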